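import Pool.Agent.helper96.LK.SpecM

/-!
# Project lk: (MP_940ffa_an), module Z0: independence at the base point
-/

open PowerSeries Filter

noncomputable section

namespace Pool.Agent.LK

open Pool.Agent.helper59.LC Pool.Agent.helper59.LD

/-- the constants do not vanish -/
theorem Z0_cQ (hNI : NI_stmt) {a dl : ℕ} (ha : 11 ≤ a) (hdl : dl ≤ 1) {u : Pt × Pt}
    (hu : u ∈ UA (a : ℤ) (dl : ℤ)) : cQ a (shift a u.1 u.2) ≠ 0 := by
  have hB := (mem_UA.1 hu).1
  have h1 := hNI a dl (by exact_mod_cast ha) (by positivity) (by exact_mod_cast hdl) u.1 hB u.2 0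
  have hx : 2 - mu a (shift a u.1 u.2) ≠ 0 := by
    have := h1.1
    rw [xx] at this
    intro h0
    apply this
    push_cast
    linarith
  have hy : 1 - nu a (shift a u.1 u.2) ≠ 0 := by
    have := h1.2
    rw [yy] at this
    simpa using this
  rw [cQ]
  split_ifs
  · exact one_div_ne_zero hy
  · exact div_ne_zero (by positivity) (mul_ne_zero hy hx)
  · exact div_ne_zero (by positivity) (mul_ne_zero hy hx)

theorem Z0 (hINJ : INJ_stmt) (hNI : NI_stmt) : Z0_stmt := by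
  intro a dl ha hdl
  classical
  rw [Fintype.linearIndependent_iff]
  intro c hc
  have hk : ∀ k : ℕ, c none * w0 a dl none k +
      (∑ u : {u // u ∈ UA (a : ℤ) (dl : ℤ)}, c (some (Sum.inl u)) * w0 a dl (some (Sum.inl u)) k +
      ∑ u : {u // u ∈ UB (a : ℤ) (dl : ℤ)}, c (some (Sum.inr u)) * w0 a dl (some (Sum.inr u)) k)
        = 0 := by
    intro k
    have h := congrFun hc k
    rw [Finset.sum_apply, Fintype.sum_option, Fintype.sum_sum_type] at h
    simpa only [Pi.smul_apply, smul_eq_mul, Pi.zero_apply] using h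
  let A : Pt × Pt → ℂ := fun u => if h : u ∈ UA (a : ℤ) (dl : ℤ) then
    -(c (some (Sum.inl ⟨u, h⟩)) * ((cQ a (shift a u.1 u.2) : ℚ) : ℂ)) else 0
  let B : Pt × Pt → ℂ := fun u => if h : u ∈ UB (a : ℤ) (dl : ℤ) then
    c (some (Sum.inr ⟨u, h⟩)) else 0
  have hAv : ∀ u : {u // u ∈ UA (a : ℤ) (dl : ℤ)}, A u.1 =
      -(c (some (Sum.inl u)) * ((cQ a (shift a u.1.1 u.1.2) : ℚ) : ℂ)) := by
    intro u
    simp only [A, dif_pos u.2]
  have hBv : ∀ u : {u // u ∈ UB (a : ℤ) (dl : ℤ)}, B u.1 = c (some (Sum.inr u)) := by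
    intro u
    simp only [B, dif_pos u.2]
  have hrel : ∀ j : ℕ, 2 ≤ j →
      ∑ u ∈ UA (a : ℤ) (dl : ℤ), A u * ((j * sg a (shift a u.1 u.2) j : ℚ) : ℂ) +
      ∑ u ∈ UB (a : ℤ) (dl : ℤ), B u * ((sg a (shift a u.1 (u.2.1, u.2.2 + 2)) j -
        sg a (shift a u.1 (u.2.1 + 1, u.2.2)) j : ℚ) : ℂ) = 0 := by
    intro j hj
    obtain ⟨k, rfl⟩ : ∃ k, j = k + 1 := ⟨j - 1, by omega⟩
    have h := hk k
    have hk0 : k ≠ 0 := by omega
    have h2 : (2 : ℂ) ^ (k + 1) ≠ 0 := pow_ne_zero _ two_ne_zero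
    rw [← Finset.sum_coe_sort (UA (a : ℤ) (dl : ℤ)), ← Finset.sum_coe_sort (UB (a : ℤ) (dl : ℤ))]
    apply mul_left_cancel₀ h2
    rw [mul_zero, ← h, mul_add, Finset.mul_sum, Finset.mul_sum]
    simp only [w0, if_neg hk0, mul_zero, zero_add]
    refine congrArg₂ (· + ·) (Finset.sum_congr rfl fun u _ => ?_)
      (Finset.sum_congr rfl fun u _ => ?_)
    · rw [hAv]
      push_cast
      ring
    · rw [hBv]
      push_cast
      ring
  obtain ⟨hA, hB⟩ := hINJ a dl (by exact_mod_cast ha) (by positivity) (by exact_mod_cast hdl) A B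
    (eventually_atTop.2 ⟨2, hrel⟩)
  have hcA : ∀ u : {u // u ∈ UA (a : ℤ) (dl : ℤ)}, c (some (Sum.inl u)) = 0 := by
    intro u
    have h := hA u.1 u.2
    rw [hAv, neg_eq_zero] at h
    exact (mul_eq_zero.1 h).resolve_right (by exact_mod_cast Z0_cQ hNI ha hdl u.2)
  have hcB : ∀ u : {u // u ∈ UB (a : ℤ) (dl : ℤ)}, c (some (Sum.inr u)) = 0 := by
    intro u
    have h := hB u.1 u.2
    rwa [hBv] at h
  have hc0 : c none = 0 := by
    have h := hk 0
    simp only [hcA, hcB, zero_mul, Finset.sum_const_zero, add_zero, w0, if_true] at h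
    refine (mul_eq_zero.1 h).resolve_right ?_
    rw [neg_eq_zero.not]
    exact_mod_cast (by positivity : (2 * a + 1 : ℕ) ≠ 0)
  intro i
  rcases i with _ | u | u
  · exact hc0
  · exact hcA u
  · exact hcB u

end Pool.Agent.LK
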